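import Pool.Agent.N205.WT.Stm

/-!
# WT/10: soundness of the certificate
-/

set_option autoImplicit false

namespace Pool.Agent.N547.WT

open Pool.Agent.N205.WT

lemma evL_addL (z : ℂ) : ∀ l m : List ℤ, evL z (addL l m) = evL z l + evL z m
  | [], m => by simp [addL, evL]
  | a :: l, [] => by simp [addL, evL]
  | a :: l, b :: m => by
    simp only [addL, evL, evL_addL z l m]
    push_cast
    ring

lemma evL_smul (z : ℂ) (a : ℤ) : ∀ l : List ℤ, evL z (l.map (a * ·)) = a * evL z l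
  | [] => by simp [evL]
  | b :: l => by
    simp only [List.map_cons, evL, evL_smul z a l]
    push_cast
    ring

lemma evL_mulL (z : ℂ) : ∀ l m : List ℤ, evL z (mulL l m) = evL z l * evL z m
  | [], m => by simp [mulL, evL]
  | a :: l, m => by
    simp only [mulL, evL_addL, evL_smul, evL, evL_mulL z l m]
    push_cast
    ring

lemma rho_sq : ((Real.sqrt 2)⁻¹) ^ 2 = (2 : ℝ)⁻¹ := by
  rw [inv_pow, Real.sq_sqrt (by norm_num)]

lemma rho_le : (Real.sqrt 2)⁻¹ ≤ 7072 / 10000 := by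
  have h : (10000 / 7072 : ℝ) ≤ Real.sqrt 2 := by
    apply Real.le_sqrt_of_sq_le
    norm_num
  have h2 := inv_anti₀ (by norm_num) h
  refine h2.trans ?_
  norm_num

lemma two_pow_le (k : ℕ) : (2 : ℝ) ^ 40 * ((2 : ℝ)⁻¹) ^ k ≤ 2 ^ (40 - k) := by
  rw [inv_pow, ← div_eq_mul_inv, div_le_iff₀ (by positivity), ← pow_add]
  exact pow_le_pow_right₀ (by norm_num) (by omega)

lemma wt_ge (i : ℕ) : 10000 * 2 ^ 40 * ((Real.sqrt 2)⁻¹) ^ i ≤ (wt i : ℝ) := by
  rcases Nat.even_or_odd' i with ⟨k, rfl | rfl⟩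
  · rw [pow_mul, rho_sq]
    have h1 : wt (2 * k) = 10000 * 2 ^ (40 - k) := by
      unfold wt
      rw [if_pos (by omega)]
      congr 3
      omega
    rw [h1]
    push_cast
    have := two_pow_le k
    nlinarith
  · rw [pow_succ (Real.sqrt 2)⁻¹, pow_mul, rho_sq]
    have h1 : wt (2 * k + 1) = 7072 * 2 ^ (40 - k) := by
      unfold wt
      rw [if_neg (by omega)]
      congr 3
      omega
    rw [h1]
    push_cast
    have h2 := two_pow_le k
    have h3 := rho_le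
    have h4 : (0 : ℝ) ≤ (Real.sqrt 2)⁻¹ := by positivity
    have h5 : (0 : ℝ) ≤ (2 : ℝ) ^ 40 * ((2 : ℝ)⁻¹) ^ k := by positivity
    calc (10000 : ℝ) * 2 ^ 40 * (((2 : ℝ)⁻¹) ^ k * (Real.sqrt 2)⁻¹)
        = (2 ^ 40 * ((2 : ℝ)⁻¹) ^ k) * (10000 * (Real.sqrt 2)⁻¹) := by ring
      _ ≤ 2 ^ (40 - k) * 7072 := by
        apply mul_le_mul h2 (by linarith) (by positivity) (by positivity)
      _ = _ := by ring

lemma nrm_ge (z : ℂ) (hz : ‖z‖ ≤ (Real.sqrt 2)⁻¹) : ∀ (l : List ℤ) (i : ℕ),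
    10000 * 2 ^ 40 * ((Real.sqrt 2)⁻¹) ^ i * ‖evL z l‖ ≤ (nrm i l : ℝ)
  | [], i => by simp [evL, nrm]
  | a :: l, i => by
    have h1 := nrm_ge z hz l (i + 1)
    have h2 := wt_ge i
    simp only [evL, nrm]
    push_cast
    have h3 : ‖(a : ℂ) + z * evL z l‖ ≤ |(a : ℝ)| + (Real.sqrt 2)⁻¹ * ‖evL z l‖ := by
      refine (norm_add_le _ _).trans ?_
      rw [Complex.norm_intCast, norm_mul]
      gcongr
    have h4 : ((a.natAbs : ℕ) : ℝ) = |(a : ℝ)| := by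
      rw [Nat.cast_natAbs, Int.cast_abs]
    rw [h4]
    have h5 : (0 : ℝ) ≤ ((Real.sqrt 2)⁻¹) ^ i := by positivity
    calc 10000 * 2 ^ 40 * ((Real.sqrt 2)⁻¹) ^ i * ‖(a : ℂ) + z * evL z l‖
        ≤ 10000 * 2 ^ 40 * ((Real.sqrt 2)⁻¹) ^ i * (|(a : ℝ)| + (Real.sqrt 2)⁻¹ * ‖evL z l‖) := by
          gcongr
      _ = |(a : ℝ)| * (10000 * 2 ^ 40 * ((Real.sqrt 2)⁻¹) ^ i) +
          10000 * 2 ^ 40 * ((Real.sqrt 2)⁻¹) ^ (i + 1) * ‖evL z l‖ := by ring
      _ ≤ _ := by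
          gcongr

theorem t_CERT : S_CERT := by
  intro A B D h z hz
  unfold cert at h
  have h1 := nrm_ge z hz (addL (mulL A B) [-(D : ℤ)]) 0
  have h2 := nrm_ge z hz B 0
  have hE : evL z (addL (mulL A B) [-(D : ℤ)]) = evL z A * evL z B - D := by
    rw [evL_addL, evL_mulL]
    simp [evL]
    ring
  rw [hE] at h1
  have h3 : (10000 * (nrm 0 (addL (mulL A B) [-(D : ℤ)]) : ℝ) + 401 * (nrm 0 B : ℝ)) <
      10000 * ((D : ℝ) * (wt 0 : ℝ)) := by
    exact_mod_cast h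
  have h4 : (wt 0 : ℝ) = 10000 * 2 ^ 40 := by
    have : wt 0 = 10000 * 2 ^ 40 := by decide
    rw [this]; push_cast; norm_num
  rw [h4] at h3
  rw [pow_zero, mul_one] at h1 h2
  have h5 : 10000 * ‖evL z A * evL z B - D‖ + 401 * ‖evL z B‖ < 10000 * (D : ℝ) := by
    by_contra hc
    push Not at hc
    nlinarith
  have h6 : (D : ℝ) ≤ ‖evL z A‖ * ‖evL z B‖ + ‖evL z A * evL z B - D‖ := by
    have e : ((D : ℕ) : ℂ) = evL z A * evL z B - (evL z A * evL z B - D) := by ring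
    have h7 : ‖((D : ℕ) : ℂ)‖ = (D : ℝ) := by simp
    rw [← h7]
    conv_lhs => rw [e]
    refine (norm_sub_le _ _).trans ?_
    rw [norm_mul]
  have h8 : 0 ≤ ‖evL z B‖ := norm_nonneg _
  by_contra hc
  push Not at hc
  have h9 : ‖evL z A‖ * ‖evL z B‖ ≤ 401 / 10000 * ‖evL z B‖ := by gcongr
  linarith

end Pool.Agent.N547.WT
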